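import Pool.Agent.K9h14.ZB.Lift

/-!
Commensurated subgroups.
-/

set_option autoImplicit false

open scoped Pointwise

namespace Pool.Agent.K9h14.ZB

variable {G : Type} [Group G]

lemma mem_conj_iff (A : Subgroup G) (g x : G) :
    x ∈ ConjAct.toConjAct g • A ↔ g⁻¹ * x * g ∈ A := by
  rw [Subgroup.mem_pointwise_smul_iff_inv_smul_mem, ← ConjAct.toConjAct_inv,
    ConjAct.toConjAct_smul, inv_inv]

lemma coset1 {A : Subgroup G} (hA : Subgroup.Commensurable.commensurator A = ⊤) (g : G) :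
    ∃ F : Finset G, ∀ a ∈ A, ∃ a' ∈ A, ∃ f ∈ F, g * a = a' * f := by
  classical
  have h1 : g⁻¹ ∈ Subgroup.Commensurable.commensurator A := by rw [hA]; trivial
  rw [Subgroup.Commensurable.commensurator_mem_iff] at h1
  have h2 : ((ConjAct.toConjAct g⁻¹ • A).subgroupOf A).index ≠ 0 := h1.1
  haveI : ((ConjAct.toConjAct g⁻¹ • A).subgroupOf A).FiniteIndex := ⟨h2⟩
  haveI : Fintype (A ⧸ (ConjAct.toConjAct g⁻¹ • A).subgroupOf A) := Fintype.ofFinite _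
  refine ⟨Finset.univ.image fun q : A ⧸ (ConjAct.toConjAct g⁻¹ • A).subgroupOf A =>
    g * ((q.out : A) : G)⁻¹, ?_⟩
  intro a ha
  let q : A ⧸ (ConjAct.toConjAct g⁻¹ • A).subgroupOf A := QuotientGroup.mk (⟨a, ha⟩⁻¹ : A)
  have h3 : (QuotientGroup.mk q.out : A ⧸ (ConjAct.toConjAct g⁻¹ • A).subgroupOf A) =
      QuotientGroup.mk (⟨a, ha⟩⁻¹ : A) := Quotient.out_eq q
  rw [QuotientGroup.eq, Subgroup.mem_subgroupOf, mem_conj_iff] at h3
  have h4 : (((q.out : A)⁻¹ * ⟨a, ha⟩⁻¹ : A) : G) = ((q.out : A) : G)⁻¹ * a⁻¹ := rfl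
  rw [h4, inv_inv] at h3
  refine ⟨(g * (((q.out : A) : G)⁻¹ * a⁻¹) * g⁻¹)⁻¹, A.inv_mem h3,
    g * ((q.out : A) : G)⁻¹, Finset.mem_image_of_mem _ (Finset.mem_univ q), ?_⟩
  group

lemma coset2 {A : Subgroup G} (hA : Subgroup.Commensurable.commensurator A = ⊤) (t : G) :
    ∃ F : Finset G, ∀ a ∈ A, ∃ f ∈ F, ∃ a' ∈ A, a * t = f * a' := by
  classical
  obtain ⟨F, hF⟩ := coset1 hA t⁻¹
  refine ⟨F.image fun f => f⁻¹, fun a ha => ?_⟩
  obtain ⟨a', ha', f, hf, e⟩ := hF a⁻¹ (A.inv_mem ha)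
  refine ⟨f⁻¹, Finset.mem_image_of_mem _ hf, a'⁻¹, A.inv_mem ha', ?_⟩
  rw [← mul_inv_rev, ← e, mul_inv_rev, inv_inv, inv_inv]

/-- `C` contains the conjugates of a non-trivial power of every element of `A` -/
def Deep (A C : Subgroup G) : Prop :=
  C ≤ A ∧ ∀ g : G, ∀ b ∈ A, ∃ m : ℕ, 0 < m ∧ g * b ^ m * g⁻¹ ∈ C

lemma deep_self {A : Subgroup G} (hA : Subgroup.Commensurable.commensurator A = ⊤) :
    Deep A A := by
  refine ⟨le_rfl, fun g b hb => ?_⟩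
  have h1 : g ∈ Subgroup.Commensurable.commensurator A := by rw [hA]; trivial
  rw [Subgroup.Commensurable.commensurator_mem_iff] at h1
  have h2 : g * b * g⁻¹ ∈ ConjAct.toConjAct g • A := by
    rw [mem_conj_iff]
    convert hb using 1
    group
  obtain ⟨n, hn, _, h3⟩ := Subgroup.exists_pow_mem_of_relIndex_ne_zero h1.2 h2
  refine ⟨n, hn, ?_⟩
  rw [conj_pow] at h3
  exact h3.1

lemma deep_multi {A C : Subgroup G} (hC : Deep A C) (F : Finset G) {b : G} (hb : b ∈ A) :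
    ∃ m : ℕ, 0 < m ∧ ∀ g ∈ F, g * b ^ m * g⁻¹ ∈ C := by
  classical
  induction F using Finset.induction_on with
  | empty => exact ⟨1, one_pos, fun g hg => absurd hg (Finset.notMem_empty g)⟩
  | insert f F _ ih =>
    obtain ⟨m, hm, h1⟩ := ih
    obtain ⟨n, hn, h2⟩ := hC.2 f b hb
    refine ⟨m * n, Nat.mul_pos hm hn, fun g hg => ?_⟩
    rcases Finset.mem_insert.1 hg with rfl | hg
    · rw [mul_comm, pow_mul, ← conj_pow]
      exact C.pow_mem h2 m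
    · rw [pow_mul, ← conj_pow]
      exact C.pow_mem (h1 g hg) n

/-- the elements of `C` whose conjugates by `h⁻¹`, `h ∈ H`, are in `C` -/
def sb (C : Subgroup G) (H : Finset G) : Subgroup G where
  carrier := {c | c ∈ C ∧ ∀ h ∈ H, h⁻¹ * c * h ∈ C}
  one_mem' := ⟨C.one_mem, fun h _ => by rw [mul_one, inv_mul_cancel]; exact C.one_mem⟩
  mul_mem' := by
    rintro a b ⟨ha, ha'⟩ ⟨hb, hb'⟩
    refine ⟨C.mul_mem ha hb, fun h hh => ?_⟩
    have e : h⁻¹ * (a * b) * h = (h⁻¹ * a * h) * (h⁻¹ * b * h) := by group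
    rw [e]
    exact C.mul_mem (ha' h hh) (hb' h hh)
  inv_mem' := by
    rintro a ⟨ha, ha'⟩
    refine ⟨C.inv_mem ha, fun h hh => ?_⟩
    have e : h⁻¹ * a⁻¹ * h = (h⁻¹ * a * h)⁻¹ := by group
    rw [e]
    exact C.inv_mem (ha' h hh)

lemma deep_sb {A C : Subgroup G} (hC : Deep A C) (H : Finset G) : Deep A (sb C H) := by
  classical
  refine ⟨fun c hc => hC.1 hc.1, fun g b hb => ?_⟩
  obtain ⟨m, hm, h1⟩ := deep_multi hC (insert g (H.image fun h => h⁻¹ * g)) hb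
  refine ⟨m, hm, h1 g (Finset.mem_insert_self _ _), fun h hh => ?_⟩
  have h2 := h1 (h⁻¹ * g) (Finset.mem_insert_of_mem (Finset.mem_image_of_mem _ hh))
  convert h2 using 1
  group

lemma SP.single_mul {A : Subgroup G} {h : G} {F T : Finset G} [DecidableEq G]
    (hF : ∀ a ∈ A, ∃ a' ∈ A, ∃ f ∈ F, h * a = a' * f) {u : MonoidAlgebra ℤ G}
    (hu : SP A T u) (r : ℤ) :
    SP A (Finset.image₂ (· * ·) F T) (MonoidAlgebra.single h r * u) := by
  intro g hg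
  obtain ⟨x, hx, y, hy, rfl⟩ := mem_support_mul hg
  rw [MonoidAlgebra.coeff_single] at hx
  have hx' := Finsupp.support_single_subset hx
  rw [Finset.mem_singleton] at hx'
  subst hx'
  obtain ⟨a, ha, t, ht, rfl⟩ := hu y hy
  obtain ⟨a', ha', f, hf, e⟩ := hF a ha
  refine ⟨a', ha', f * t, Finset.mem_image₂_of_mem hf ht, ?_⟩
  rw [← mul_assoc, e, mul_assoc]

end Pool.Agent.K9h14.ZB
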