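import Pool.Agent.N453.ZS.Chain

/-!
Families of maps `s c : ℤ[G]^ι → M`, `c ∈ G`, which are equivariant up to conjugation of the
parameter: `s c (h x) = h s (h⁻¹ c h) x`.
-/

set_option autoImplicit false

open scoped Matrix

namespace Pool.Agent.K9h14.ZB

variable {G : Type} [Group G]

section tw

variable {M : Type} [AddCommGroup M] [Module (MonoidAlgebra ℤ G) M]

/-- `∑ a_h h ↦ ∑ a_h h σ(h⁻¹ c h)` -/
noncomputable def tw1 (σ : G → M) (c : G) : MonoidAlgebra ℤ G →+ M :=
  (Finsupp.liftAddHom fun h =>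
    { toFun := fun a : ℤ => (MonoidAlgebra.single h a : MonoidAlgebra ℤ G) • σ (h⁻¹ * c * h)
      map_zero' := by rw [MonoidAlgebra.single_zero, zero_smul]
      map_add' := fun a b => by rw [MonoidAlgebra.single_add, add_smul] }).comp
    (MonoidAlgebra.coeffAddEquiv (R := ℤ) (M := G)).toAddMonoidHom

lemma tw1_apply (σ : G → M) (c : G) (x : MonoidAlgebra ℤ G) :
    tw1 σ c x = x.coeff.sum fun h a =>
      (MonoidAlgebra.single h a : MonoidAlgebra ℤ G) • σ (h⁻¹ * c * h) := rfl

lemma tw1_single (σ : G → M) (c h : G) (a : ℤ) :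
    tw1 σ c (MonoidAlgebra.single h a) =
      (MonoidAlgebra.single h a : MonoidAlgebra ℤ G) • σ (h⁻¹ * c * h) := by
  rw [tw1_apply, MonoidAlgebra.coeff_single, Finsupp.sum_single_index]
  rw [MonoidAlgebra.single_zero, zero_smul]

lemma tw1_single_mul (σ : G → M) (c h : G) (a : ℤ) (x : MonoidAlgebra ℤ G) :
    tw1 σ c (MonoidAlgebra.single h a * x) =
      (MonoidAlgebra.single h a : MonoidAlgebra ℤ G) • tw1 σ (h⁻¹ * c * h) x := by
  refine MonoidAlgebra.induction_linear x ?_ ?_ ?_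
  · rw [mul_zero, map_zero, map_zero, smul_zero]
  · intro x y hx hy
    rw [mul_add, map_add, hx, hy, map_add, smul_add]
  · intro k b
    rw [MonoidAlgebra.single_mul_single, tw1_single, tw1_single, ← mul_smul,
      MonoidAlgebra.single_mul_single]
    congr 2
    group

lemma tw1_sub (σ τ : G → M) (c : G) (x : MonoidAlgebra ℤ G) :
    tw1 (fun c => σ c - τ c) c x = tw1 σ c x - tw1 τ c x := by
  refine MonoidAlgebra.induction_linear x ?_ ?_ ?_
  · rw [map_zero, map_zero, map_zero, sub_zero]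
  · intro x y hx hy
    rw [map_add, hx, hy, map_add, map_add]
    abel
  · intro k b
    rw [tw1_single, tw1_single, tw1_single, smul_sub]

lemma tw1_congr {σ τ : G → M} {c : G} {x : MonoidAlgebra ℤ G}
    (h : ∀ k ∈ x.coeff.support, σ (k⁻¹ * c * k) = τ (k⁻¹ * c * k)) :
    tw1 σ c x = tw1 τ c x := by
  rw [tw1_apply, tw1_apply]
  exact Finsupp.sum_congr fun k hk => by rw [h k hk]

lemma tw1_map {M' : Type} [AddCommGroup M'] [Module (MonoidAlgebra ℤ G) M']
    (f : M →ₗ[MonoidAlgebra ℤ G] M') (σ : G → M) (c : G) (x : MonoidAlgebra ℤ G) :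
    f (tw1 σ c x) = tw1 (fun c => f (σ c)) c x := by
  refine MonoidAlgebra.induction_linear x ?_ ?_ ?_
  · rw [map_zero, map_zero, map_zero]
  · intro x y hx hy
    rw [map_add, map_add, hx, hy, map_add]
  · intro k b
    rw [tw1_single, tw1_single, map_smul]

variable {ι κ : Type} [Fintype ι] [Fintype κ]

/-- `∑ a_(h,l) h e_l ↦ ∑ a_(h,l) h s(h⁻¹ c h, l)` -/
noncomputable def tw (s : G → ι → M) (c : G) (x : ι → MonoidAlgebra ℤ G) : M :=
  ∑ l, tw1 (fun c => s c l) c (x l)

lemma tw_add (s : G → ι → M) (c : G) (x y : ι → MonoidAlgebra ℤ G) :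
    tw s c (x + y) = tw s c x + tw s c y := by
  simp only [tw, Pi.add_apply, map_add, Finset.sum_add_distrib]

lemma tw_zero (s : G → ι → M) (c : G) : tw s c (0 : ι → MonoidAlgebra ℤ G) = 0 := by
  simp [tw]

lemma tw_single_smul (s : G → ι → M) (c h : G) (a : ℤ) (x : ι → MonoidAlgebra ℤ G) :
    tw s c ((MonoidAlgebra.single h a : MonoidAlgebra ℤ G) • x) =
      (MonoidAlgebra.single h a : MonoidAlgebra ℤ G) • tw s (h⁻¹ * c * h) x := by
  simp only [tw, Pi.smul_apply, smul_eq_mul, tw1_single_mul, Finset.smul_sum]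

lemma tw_smul (s : G → ι → M) (c : G) (r : MonoidAlgebra ℤ G) (x : ι → MonoidAlgebra ℤ G) :
    tw s c (r • x) = tw1 (fun c => tw s c x) c r := by
  refine MonoidAlgebra.induction_linear r ?_ ?_ ?_
  · rw [zero_smul, tw_zero, map_zero]
  · intro r r' h1 h2
    rw [add_smul, tw_add, h1, h2, map_add]
  · intro h a
    rw [tw_single_smul, tw1_single]

lemma tw_sum (s : G → ι → M) (c : G) (t : Finset κ) (x : κ → ι → MonoidAlgebra ℤ G) :
    tw s c (∑ i ∈ t, x i) = ∑ i ∈ t, tw s c (x i) := by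
  classical
  induction t using Finset.induction_on with
  | empty => simp [tw_zero]
  | insert i t hi ih => rw [Finset.sum_insert hi, Finset.sum_insert hi, tw_add, ih]

lemma tw_comp (s : G → ι → M) (c : G) (D : Matrix κ ι (MonoidAlgebra ℤ G))
    (x : κ → MonoidAlgebra ℤ G) :
    tw (fun c l => tw s c (D l)) c x = tw s c (x ᵥ* D) := by
  have h : x ᵥ* D = ∑ l, x l • D l := by
    funext i
    simp [Matrix.vecMul, dotProduct, Finset.sum_apply]
  rw [h, tw_sum]
  simp only [tw_smul]
  rfl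

lemma tw_sub (s t : G → ι → M) (c : G) (x : ι → MonoidAlgebra ℤ G) :
    tw (fun c l => s c l - t c l) c x = tw s c x - tw t c x := by
  simp only [tw, tw1_sub, Finset.sum_sub_distrib]

lemma tw_congr {s t : G → ι → M} {c : G} {x : ι → MonoidAlgebra ℤ G}
    (h : ∀ l, ∀ k ∈ (x l).coeff.support, s (k⁻¹ * c * k) l = t (k⁻¹ * c * k) l) :
    tw s c x = tw t c x := by
  simp only [tw]
  exact Finset.sum_congr rfl fun l _ => tw1_congr (h l)

lemma tw_map {M' : Type} [AddCommGroup M'] [Module (MonoidAlgebra ℤ G) M']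
    (f : M →ₗ[MonoidAlgebra ℤ G] M') (s : G → ι → M) (c : G) (x : ι → MonoidAlgebra ℤ G) :
    f (tw s c x) = tw (fun c l => f (s c l)) c x := by
  simp only [tw, map_sum, tw1_map]

end tw

/-- `c ↦ c - 1` -/
noncomputable def dl (c : G) : MonoidAlgebra ℤ G := MonoidAlgebra.single c 1 - 1

lemma dl_comm (c h : G) (a : ℤ) :
    MonoidAlgebra.single h a * dl (h⁻¹ * c * h) = dl c * MonoidAlgebra.single h a := by
  rw [dl, dl, mul_sub, sub_mul, MonoidAlgebra.single_mul_single, MonoidAlgebra.single_mul_single,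
    mul_one, one_mul, mul_one, one_mul]
  congr 2
  group

lemma tw_unit {ι : Type} [Fintype ι] [DecidableEq ι] (c : G) (x : ι → MonoidAlgebra ℤ G) :
    tw (fun c l => dl c • (Pi.single l 1 : ι → MonoidAlgebra ℤ G)) c x = dl c • x := by
  have h1 : ∀ l, tw1 (fun c => dl c • (Pi.single l 1 : ι → MonoidAlgebra ℤ G)) c (x l) =
      dl c • (Pi.single l (x l) : ι → MonoidAlgebra ℤ G) := by
    intro l
    refine MonoidAlgebra.induction_linear (x l) ?_ ?_ ?_
    · rw [map_zero, Pi.single_zero, smul_zero]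
    · intro x y hx hy
      rw [map_add, hx, hy, Pi.single_add, smul_add]
    · intro h a
      rw [tw1_single, ← mul_smul, dl_comm, mul_smul]
      congr 1
      funext i
      rcases eq_or_ne i l with rfl | hi
      · simp
      · simp [Pi.single_eq_of_ne hi]
  simp only [tw, h1]
  rw [← Finset.smul_sum]
  congr 1
  exact Finset.univ_sum_single x

end Pool.Agent.K9h14.ZB
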