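import Pool.Agent.K9h14.ZB.Com
import Pool.Agent.K9h14.ZB.Tw

/-!
Left multiplication by `c - 1`, `c` in a commensurated free abelian group `A`, is homotopic to zero,
with homotopies which send basis elements to chains with support in finitely many cosets of `A`,
uniformly in `c`.
-/

set_option autoImplicit false

open scoped Matrix

namespace Pool.Agent.K9h14.ZB

open Pool.Agent.H919R4.ZS (FinRes eps eps_smul exists_lift augm augm_single d_mul_d)

variable {G : Type} [Group G]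

/-- all elements of the group which occur in the matrix -/
noncomputable def sup {a b : ℕ} (D : Matrix (Fin a) (Fin b) (MonoidAlgebra ℤ G)) : Finset G :=
  open Classical in
  Finset.univ.biUnion fun i => Finset.univ.biUnion fun l => (D i l).coeff.support

lemma mem_sup {a b : ℕ} {D : Matrix (Fin a) (Fin b) (MonoidAlgebra ℤ G)} {i : Fin a} {l : Fin b}
    {g : G} (h : g ∈ (D i l).coeff.support) : g ∈ sup D := by
  classical
  exact Finset.mem_biUnion.2 ⟨i, Finset.mem_univ _, Finset.mem_biUnion.2 ⟨l, Finset.mem_univ _, h⟩⟩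

/-- the families of homotopies in degree `k` -/
def Q (X : FinRes G) (A : Subgroup G) (k : ℕ) (C : Subgroup G) (T : Finset G)
    (s : G → Fin (X.n k) → Fin (X.n (k + 1)) → MonoidAlgebra ℤ G) : Prop :=
  (∀ c ∈ C, ∀ l m, SP A T (s c l m)) ∧
  (∀ c : G, ∀ i, (∀ l, ∀ h ∈ (X.d k i l).coeff.support, h⁻¹ * c * h ∈ C) →
    (tw s c (X.d k i)) ᵥ* X.d k = dl c • X.d k i)

lemma SP_dl {A : Subgroup G} {T : Finset G} (hT : (1 : G) ∈ T) {c : G} (hc : c ∈ A) :
    SP A T (dl c) := by
  refine SP.sub ?_ ?_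
  · intro g hg
    rw [MonoidAlgebra.coeff_single] at hg
    have h := Finsupp.support_single_subset hg
    rw [Finset.mem_singleton] at h
    exact ⟨c, hc, 1, hT, by rw [h, mul_one]⟩
  · intro g hg
    rw [MonoidAlgebra.one_def, MonoidAlgebra.coeff_single] at hg
    have h := Finsupp.support_single_subset hg
    rw [Finset.mem_singleton] at h
    exact ⟨1, A.one_mem, 1, hT, by rw [h, mul_one]⟩

lemma SP_dl_single {A : Subgroup G} {T : Finset G} (hT : (1 : G) ∈ T) {c : G} (hc : c ∈ A)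
    {n : ℕ} (i l : Fin n) :
    SP A T ((dl c • (Pi.single i 1 : Fin n → MonoidAlgebra ℤ G)) l) := by
  rw [Pi.smul_apply, smul_eq_mul]
  rcases eq_or_ne l i with rfl | hl
  · rw [Pi.single_eq_same, mul_one]
    exact SP_dl hT hc
  · rw [Pi.single_eq_of_ne hl, mul_zero]
    exact SP.zero _ _

variable {h : ℕ} (j : Multiplicative (Fin h → ℤ) →* G)

/-- the degree zero -/
theorem base (X : FinRes G) : ∃ T s, Q X j.range 0 j.range T s := by
  classical
  obtain ⟨T, hT⟩ := exists_unif j {1} (X.d 0)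
  have h1 : ∀ (c : G) (l : Fin (X.n 0)), ∃ y : Fin (X.n 1) → MonoidAlgebra ℤ G, c ∈ j.range →
      (∀ m, SP j.range T (y m)) ∧
      y ᵥ* X.d 0 = dl c • (Pi.single l 1 : Fin (X.n 0) → MonoidAlgebra ℤ G) := by
    intro c l
    by_cases hc : c ∈ j.range
    · obtain ⟨y, hy⟩ := hT (dl c • (Pi.single l 1 : Fin (X.n 0) → MonoidAlgebra ℤ G))
        (fun m => SP_dl_single (Finset.mem_singleton_self 1) hc l m)
        (exists_lift X _ (by
          rw [eps_smul, dl, map_sub, augm_single, map_one, sub_self, zero_mul]))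
      exact ⟨y, fun _ => hy⟩
    · exact ⟨0, fun h => absurd h hc⟩
  choose s hs using h1
  refine ⟨T, s, fun c hc l m => (hs c l hc).1 m, fun c i hi => ?_⟩
  have h2 := tw_map ((X.d 0).vecMulLinear) s c (X.d 0 i)
  rw [Matrix.vecMulLinear_apply] at h2
  rw [h2]
  simp only [Matrix.vecMulLinear_apply]
  rw [tw_congr (t := fun c l => dl c • (Pi.single l 1 : Fin (X.n 0) → MonoidAlgebra ℤ G))
    (fun l g hg => (hs _ l (hi l g hg)).2), tw_unit]

/-- the homotopy equation -/
def HE (X : FinRes G) (k : ℕ) (s : G → Fin (X.n k) → Fin (X.n (k + 1)) → MonoidAlgebra ℤ G)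
    (s' : G → Fin (X.n (k + 1)) → Fin (X.n (k + 2)) → MonoidAlgebra ℤ G) (c : G) : Prop :=
  ∀ i, s' c i ᵥ* X.d (k + 1) + tw s c (X.d k i) =
    dl c • (Pi.single i 1 : Fin (X.n (k + 1)) → MonoidAlgebra ℤ G)

/-- the step -/
theorem step (X : FinRes G) (hA : Subgroup.Commensurable.commensurator j.range = ⊤) {k : ℕ}
    {C : Subgroup G} {T : Finset G}
    {s : G → Fin (X.n k) → Fin (X.n (k + 1)) → MonoidAlgebra ℤ G} (hC : C ≤ j.range)
    (H : Q X j.range k C T s) :
    ∃ T' s', Q X j.range (k + 1) (sb C (sup (X.d k))) T' s' ∧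
      ∀ c ∈ sb C (sup (X.d k)), HE X k s s' c := by
  classical
  choose F hF using fun g : G => coset1 hA g
  let T2 : Finset G := {1} ∪ (sup (X.d k)).biUnion fun g => Finset.image₂ (· * ·) (F g) T
  obtain ⟨T', hT'⟩ := exists_unif j T2 (X.d (k + 1))
  let z : G → Fin (X.n (k + 1)) → Fin (X.n (k + 1)) → MonoidAlgebra ℤ G := fun c i =>
    dl c • (Pi.single i 1 : Fin (X.n (k + 1)) → MonoidAlgebra ℤ G) - tw s c (X.d k i)
  have hz : ∀ c ∈ sb C (sup (X.d k)), ∀ i, z c i ᵥ* X.d k = 0 := by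
    intro c hc i
    rw [Matrix.sub_vecMul, H.2 c i (fun l g hg => hc.2 g (mem_sup hg)), Matrix.smul_vecMul,
      Matrix.single_one_vecMul, sub_eq_zero]
    rfl
  have h1T : (1 : G) ∈ T2 := Finset.mem_union_left _ (Finset.mem_singleton_self 1)
  have hzs : ∀ c ∈ sb C (sup (X.d k)), ∀ i l, SP j.range T2 (z c i l) := by
    intro c hc i l
    refine SP.sub (SP_dl_single h1T (hC hc.1) i l) ?_
    rw [tw, Finset.sum_apply]
    refine SP.sum _ fun m _ => ?_
    rw [tw1_apply, Finsupp.sum, Finset.sum_apply]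
    refine SP.sum _ fun g hg => ?_
    rw [Pi.smul_apply, smul_eq_mul]
    refine SP.mono ?_ (SP.single_mul (hF g) (H.1 _ (hc.2 g (mem_sup hg)) m l) _)
    intro x hx
    exact Finset.mem_union_right _ (Finset.mem_biUnion.2 ⟨g, mem_sup hg, hx⟩)
  have h1 : ∀ (c : G) (i : Fin (X.n (k + 1))), ∃ y : Fin (X.n (k + 2)) → MonoidAlgebra ℤ G,
      c ∈ sb C (sup (X.d k)) → (∀ m, SP j.range T' (y m)) ∧ y ᵥ* X.d (k + 1) = z c i := by
    intro c i
    by_cases hc : c ∈ sb C (sup (X.d k))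
    · obtain ⟨y, hy⟩ := hT' (z c i) (hzs c hc i) ((X.exact_succ k _).1 (hz c hc i))
      exact ⟨y, fun _ => hy⟩
    · exact ⟨0, fun h => absurd h hc⟩
  choose s' hs' using h1
  refine ⟨T', s', ⟨fun c hc l m => (hs' c l hc).1 m, fun c i hi => ?_⟩, fun c hc i => ?_⟩
  · have h2 := tw_map ((X.d (k + 1)).vecMulLinear) s' c (X.d (k + 1) i)
    rw [Matrix.vecMulLinear_apply] at h2
    rw [h2]
    simp only [Matrix.vecMulLinear_apply]
    rw [tw_congr (t := z) (fun l g hg => (hs' _ l (hi l g hg)).2)]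
    change tw (fun c i => dl c • (Pi.single i 1 : Fin (X.n (k + 1)) → MonoidAlgebra ℤ G) -
      tw s c (X.d k i)) c (X.d (k + 1) i) = _
    rw [tw_sub, tw_unit, tw_comp s c (X.d k)]
    have h3 : X.d (k + 1) i ᵥ* X.d k = 0 := by
      have h4 := d_mul_d X k
      have h5 := congrFun h4 i
      rw [Matrix.mul_apply_eq_vecMul] at h5
      exact h5
    rw [h3, tw_zero, sub_zero]
  · rw [(hs' c i hc).2]
    exact sub_add_cancel _ _

/-- all degrees -/
theorem exists_fam (X : FinRes G) (hA : Subgroup.Commensurable.commensurator j.range = ⊤) (k : ℕ) :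
    ∃ C T s, Deep j.range C ∧ Q X j.range k C T s := by
  induction k with
  | zero =>
    obtain ⟨T, s, h1⟩ := base j X
    exact ⟨j.range, T, s, deep_self hA, h1⟩
  | succ k ih =>
    obtain ⟨C, T, s, hC, H⟩ := ih
    obtain ⟨T', s', h1, _⟩ := step j X hA hC.1 H
    exact ⟨_, T', s', deep_sb hC _, h1⟩

end Pool.Agent.K9h14.ZB
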