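import Pool.Agent.N453.ZS.Chain

/-!
Finitely generated free abelian subgroups: chains with support in finitely many cosets, which are
boundaries, are boundaries of chains with support in finitely many cosets.
-/

set_option autoImplicit false

open scoped Matrix

namespace Pool.Agent.K9h14.ZB

variable {G : Type} [Group G]

/-- the support of `u` is contained in `A T` -/
def SP (A : Subgroup G) (T : Finset G) (u : MonoidAlgebra ℤ G) : Prop :=
  ∀ g ∈ u.coeff.support, ∃ a ∈ A, ∃ t ∈ T, g = a * t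

lemma SP.zero (A : Subgroup G) (T : Finset G) : SP A T 0 := by
  intro g hg
  simp at hg

lemma SP.add {A : Subgroup G} {T : Finset G} {u v : MonoidAlgebra ℤ G} (hu : SP A T u)
    (hv : SP A T v) : SP A T (u + v) := by
  classical
  intro g hg
  rw [MonoidAlgebra.coeff_add] at hg
  rcases Finset.mem_union.1 (Finsupp.support_add hg) with h | h
  · exact hu g h
  · exact hv g h

lemma SP.neg {A : Subgroup G} {T : Finset G} {u : MonoidAlgebra ℤ G} (hu : SP A T u) :
    SP A T (-u) := by
  intro g hg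
  apply hu g
  rw [MonoidAlgebra.coeff_neg] at hg
  rwa [Finsupp.support_neg] at hg

lemma SP.sub {A : Subgroup G} {T : Finset G} {u v : MonoidAlgebra ℤ G} (hu : SP A T u)
    (hv : SP A T v) : SP A T (u - v) := by
  rw [sub_eq_add_neg]; exact hu.add hv.neg

lemma SP.sum {A : Subgroup G} {T : Finset G} {ι : Type*} (s : Finset ι)
    {u : ι → MonoidAlgebra ℤ G} (hu : ∀ i ∈ s, SP A T (u i)) : SP A T (∑ i ∈ s, u i) := by
  classical
  induction s using Finset.induction_on with
  | empty => rw [Finset.sum_empty]; exact SP.zero A T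
  | insert i s hi ih =>
    rw [Finset.sum_insert hi]
    exact (hu i (Finset.mem_insert_self i s)).add
      (ih fun j hj => hu j (Finset.mem_insert_of_mem hj))

lemma SP.mono {A : Subgroup G} {T T' : Finset G} (h : T ⊆ T') {u : MonoidAlgebra ℤ G}
    (hu : SP A T u) : SP A T' u := by
  intro g hg
  obtain ⟨a, ha, t, ht, e⟩ := hu g hg
  exact ⟨a, ha, t, h ht, e⟩

/-- every element of `A` is the product of finitely supported things: the support of a product -/
lemma mem_support_mul {u v : MonoidAlgebra ℤ G} {g : G} (hg : g ∈ (u * v).coeff.support) :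
    ∃ a ∈ u.coeff.support, ∃ b ∈ v.coeff.support, g = a * b := by
  classical
  have h := MonoidAlgebra.support_coeff_mul_subset u v hg
  rw [Finset.mem_mul] at h
  obtain ⟨a, ha, b, hb, e⟩ := h
  exact ⟨a, ha, b, hb, e.symm⟩

variable {h : ℕ} (j : Multiplicative (Fin h → ℤ) →* G)

/-- the ring homomorphism `ℤ[ℤ^h] → ℤ[G]` -/
noncomputable def J : MonoidAlgebra ℤ (Multiplicative (Fin h → ℤ)) →+* MonoidAlgebra ℤ G :=
  MonoidAlgebra.mapDomainRingHom ℤ j

lemma J_single (b : Multiplicative (Fin h → ℤ)) (a : ℤ) :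
    J j (MonoidAlgebra.single b a) = MonoidAlgebra.single (j b) a := by
  simp [J]

lemma SP.J_mul {T : Finset G} {u : MonoidAlgebra ℤ G} (hu : SP j.range T u)
    (q : MonoidAlgebra ℤ (Multiplicative (Fin h → ℤ))) : SP j.range T (J j q * u) := by
  refine MonoidAlgebra.induction_linear q ?_ ?_ ?_
  · rw [map_zero, zero_mul]; exact SP.zero _ _
  · intro x y hx hy
    rw [map_add, add_mul]
    exact hx.add hy
  · intro b a g hg
    rw [J_single] at hg
    obtain ⟨x, hx, y, hy, rfl⟩ := mem_support_mul hg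
    rw [MonoidAlgebra.coeff_single] at hx
    have hx' := Finsupp.support_single_subset hx
    rw [Finset.mem_singleton] at hx'
    obtain ⟨a', ha', t, ht, rfl⟩ := hu y hy
    exact ⟨x * a', j.range.mul_mem (hx' ▸ ⟨b, rfl⟩) ha', t, ht, (mul_assoc _ _ _).symm⟩

instance noethB : IsNoetherianRing (MonoidAlgebra ℤ (Multiplicative (Fin h → ℤ))) := by
  have h1 : AddMonoid.FG (Fin h → ℤ) := by
    have : AddGroup.FG (Fin h → ℤ) := AddGroup.fg_iff_addMonoid_fg.2
      (Module.Finite.iff_addMonoid_fg.1 inferInstance) 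
    exact AddGroup.fg_iff_addMonoid_fg.1 this
  have h2 : Monoid.FG (Multiplicative (Fin h → ℤ)) := inferInstance
  have h3 : Algebra.FiniteType ℤ (MonoidAlgebra ℤ (Multiplicative (Fin h → ℤ))) := inferInstance
  exact Algebra.FiniteType.isNoetherianRing ℤ _

lemma SP.of_subset {A : Subgroup G} {T : Finset G} {u : MonoidAlgebra ℤ G}
    (h : u.coeff.support ⊆ T) : SP A T u :=
  fun g hg => ⟨1, A.one_mem, g, h hg, (one_mul g).symm⟩

lemma sum_single_coeff (u : MonoidAlgebra ℤ G) :
    u = ∑ g ∈ u.coeff.support, MonoidAlgebra.single g (u.coeff g) := by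
  refine MonoidAlgebra.coeff_injective ?_
  rw [MonoidAlgebra.coeff_sum]
  simp only [MonoidAlgebra.coeff_single]
  exact (Finsupp.sum_single u.coeff).symm

/-- **uniform lifts** -/
theorem exists_unif {a b : ℕ} (T : Finset G) (D : Matrix (Fin a) (Fin b) (MonoidAlgebra ℤ G)) :
    ∃ T' : Finset G, ∀ x : Fin b → MonoidAlgebra ℤ G, (∀ l, SP j.range T (x l)) →
      (∃ y, y ᵥ* D = x) → ∃ y, (∀ m, SP j.range T' (y m)) ∧ y ᵥ* D = x := by
  classical
  letI : Module (MonoidAlgebra ℤ (Multiplicative (Fin h → ℤ))) (Fin b → MonoidAlgebra ℤ G) :=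
    Module.compHom _ (J j)
  have hsm : ∀ (q : MonoidAlgebra ℤ (Multiplicative (Fin h → ℤ))) (x : Fin b → MonoidAlgebra ℤ G),
      q • x = J j q • x := fun _ _ => rfl
  let N : Submodule (MonoidAlgebra ℤ (Multiplicative (Fin h → ℤ))) (Fin b → MonoidAlgebra ℤ G) :=
    Submodule.span _ (Set.range fun p : Fin b × T =>
      (Pi.single p.1 (MonoidAlgebra.single (p.2 : G) 1) : Fin b → MonoidAlgebra ℤ G))
  have hNfg : N.FG := Submodule.fg_span (Set.finite_range _)
  let K : Submodule (MonoidAlgebra ℤ (Multiplicative (Fin h → ℤ))) (Fin b → MonoidAlgebra ℤ G) :=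
    { carrier := {x | ∃ y, y ᵥ* D = x}
      add_mem' := by
        rintro _ _ ⟨x, rfl⟩ ⟨y, rfl⟩
        exact ⟨x + y, Matrix.add_vecMul _ _ _⟩
      zero_mem' := ⟨0, Matrix.zero_vecMul _⟩
      smul_mem' := by
        rintro q _ ⟨x, rfl⟩
        exact ⟨J j q • x, by rw [hsm, Matrix.smul_vecMul]⟩ }
  have hK : (N ⊓ K).FG := by
    haveI : IsNoetherian (MonoidAlgebra ℤ (Multiplicative (Fin h → ℤ))) N :=
      isNoetherian_of_fg_of_noetherian N hNfg
    exact isNoetherian_submodule.1 this _ inf_le_left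
  obtain ⟨r, z, hz⟩ := Submodule.fg_iff_exists_fin_generating_family.1 hK
  have hzK : ∀ i, ∃ u, u ᵥ* D = z i := by
    intro i
    have h1 : z i ∈ N ⊓ K := by
      rw [← hz]; exact Submodule.subset_span ⟨i, rfl⟩
    exact h1.2
  choose u hu using hzK
  refine ⟨Finset.univ.biUnion fun i => Finset.univ.biUnion fun m => (u i m).coeff.support, ?_⟩
  intro x hx hxD
  have hxN : x ∈ N := by
    have h1 : ∀ l, (Pi.single l (x l) : Fin b → MonoidAlgebra ℤ G) ∈ N := by
      intro l
      rw [sum_single_coeff (x l)]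
      have h2 : (Pi.single l (∑ g ∈ (x l).coeff.support,
          MonoidAlgebra.single g ((x l).coeff g)) : Fin b → MonoidAlgebra ℤ G) =
          ∑ g ∈ (x l).coeff.support, Pi.single l (MonoidAlgebra.single g ((x l).coeff g)) :=
        map_sum (AddMonoidHom.single (fun _ : Fin b => MonoidAlgebra ℤ G) l) _ _
      rw [h2]
      refine Submodule.sum_mem _ fun g hg => ?_
      obtain ⟨a', ⟨b', rfl⟩, t, ht, rfl⟩ := hx l g hg
      have h3 : (Pi.single l (MonoidAlgebra.single (j b' * t) ((x l).coeff (j b' * t))) :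
          Fin b → MonoidAlgebra ℤ G) =
          (MonoidAlgebra.single b' ((x l).coeff (j b' * t)) :
            MonoidAlgebra ℤ (Multiplicative (Fin h → ℤ))) •
          (Pi.single l (MonoidAlgebra.single t 1) : Fin b → MonoidAlgebra ℤ G) := by
        rw [hsm, J_single, ← Pi.single_smul, smul_eq_mul, MonoidAlgebra.single_mul_single, mul_one]
      rw [h3]
      exact N.smul_mem _ (Submodule.subset_span ⟨(l, ⟨t, ht⟩), rfl⟩)
    rw [← Finset.univ_sum_single x]
    exact Submodule.sum_mem _ fun l _ => h1 l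
  have hxz : x ∈ Submodule.span (MonoidAlgebra ℤ (Multiplicative (Fin h → ℤ))) (Set.range z) := by
    rw [hz]; exact ⟨hxN, hxD⟩
  obtain ⟨q, hq⟩ := (Submodule.mem_span_range_iff_exists_fun _).1 hxz
  refine ⟨∑ i, J j (q i) • u i, fun m => ?_, ?_⟩
  · rw [Finset.sum_apply]
    refine SP.sum _ fun i _ => ?_
    rw [Pi.smul_apply, smul_eq_mul]
    refine SP.J_mul j (SP.of_subset ?_) _
    intro g hg
    exact Finset.mem_biUnion.2 ⟨i, Finset.mem_univ _, Finset.mem_biUnion.2
      ⟨m, Finset.mem_univ _, hg⟩⟩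
  · rw [← hq, Matrix.sum_vecMul]
    refine Finset.sum_congr rfl fun i _ => ?_
    rw [Matrix.smul_vecMul, hu, hsm]

end Pool.Agent.K9h14.ZB
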