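import Pool.Agent.K9h14.ZB.Smooth
import Pool.Agent.Results.MP_9f173d_gt.FixedClasses

/-!
Zero in the spectrum for complexes of dimension at most `h + 2` whose fundamental group has a
commensurated subgroup isomorphic to `ℤ^h`.
-/

set_option autoImplicit false

open scoped Matrix

namespace Pool.Agent.K9h14.ZB

open Pool.Agent.H919R4.ZS (FinRes toRed exists_cols col_mul d_mul_d eps eps_d)
open Pool.Agent.Results.MP_9f173d_gt.FixedClasses (NilpotentChain Fixed gen)

variable {G : Type} [Group G]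

lemma mem_of_subsingleton (X : FinRes G) {n : ℕ} (h : Subsingleton (X.cohomology n))
    (y : Fin (X.n n) → MonoidAlgebra ℤ G) (hy : X.cobd n y = 0) : y ∈ X.coboundaries n := by
  have h1 := h.elim (((⟨y, hy⟩ : (X.cobd n).ker)) : X.cohomology n) 0
  rw [QuotientAddGroup.eq_zero_iff] at h1
  exact h1

lemma exists_of_nontrivial (X : FinRes G) {n : ℕ} (h : Nontrivial (X.cohomology n)) :
    ∃ y, X.cobd n y = 0 ∧ y ∉ X.coboundaries n := by
  by_contra hcon
  push Not at hcon
  refine not_subsingleton_iff_nontrivial.2 h ?_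
  rw [QuotientAddGroup.subsingleton_iff, AddSubgroup.addSubgroupOf_eq_top]
  intro z hz
  exact hcon z hz

/-- the cohomology with coefficients in `ℤ[G]` does not vanish -/
theorem exists_cohomology (X : FinRes G) : ∃ n ≤ X.len, Nontrivial (X.cohomology n) := by
  by_contra hcon
  push Not at hcon
  have hs : ∀ n, Subsingleton (X.cohomology n) := by
    intro n
    rcases Nat.lt_or_ge X.len n with h | h
    · haveI : IsEmpty (Fin (X.n n)) := by
        rw [X.n_eq_zero n h]; infer_instance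
      refine not_nontrivial_iff_subsingleton.1 fun hnt => ?_
      obtain ⟨y, _, hy⟩ := exists_of_nontrivial X hnt
      exact hy (by rw [Subsingleton.elim y 0]; exact AddSubgroup.zero_mem _)
    · exact hcon n h
  have hP : ∀ m k, X.len ≤ k + m →
      ∃ s : Matrix (Fin (X.n k)) (Fin (X.n (k + 1))) (MonoidAlgebra ℤ G),
        X.d k * (1 - s * X.d k) = 0 := by
    intro m
    induction m with
    | zero =>
      intro k hk
      refine ⟨0, ?_⟩
      haveI : IsEmpty (Fin (X.n (k + 1))) := by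
        rw [X.n_eq_zero (k + 1) (by omega)]; infer_instance
      exact funext fun i => isEmptyElim i
    | succ m ih =>
      intro k hk
      obtain ⟨s, hs'⟩ := ih (k + 1) (by omega)
      obtain ⟨t, ht⟩ := exists_cols (X.d k) (1 - s * X.d (k + 1)) (fun i => by
        have h1 := mem_of_subsingleton X (hs (k + 1)) (fun l => (1 - s * X.d (k + 1) :
          Matrix (Fin (X.n (k + 1))) (Fin (X.n (k + 1))) (MonoidAlgebra ℤ G)) l i)
          (col_mul _ _ hs' i)
        obtain ⟨y, hy⟩ := h1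
        exact ⟨y, hy⟩)
      refine ⟨t, ?_⟩
      rw [Matrix.mul_sub, Matrix.mul_one, ← Matrix.mul_assoc, ht, Matrix.sub_mul, Matrix.one_mul,
        Matrix.mul_assoc, d_mul_d, Matrix.mul_zero]
      simp
  obtain ⟨s, hs0⟩ := hP X.len 0 (by omega)
  have e3 : (1 - s * X.d 0 : Matrix (Fin (X.n 0)) (Fin (X.n 0)) (MonoidAlgebra ℤ G)) = 0 := by
    refine funext fun i => funext fun k => ?_
    have h1 := mem_of_subsingleton X (hs 0) (fun l => (1 - s * X.d 0 :
          Matrix (Fin (X.n 0)) (Fin (X.n 0)) (MonoidAlgebra ℤ G)) l k) (col_mul _ _ hs0 k)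
    have h2 : (fun l => (1 - s * X.d 0 :
          Matrix (Fin (X.n 0)) (Fin (X.n 0)) (MonoidAlgebra ℤ G)) l k) = 0 := h1
    exact congrFun h2 i
  obtain ⟨x0, hx0⟩ := X.surj
  change eps X x0 = 1 at hx0
  have e4 : s * X.d 0 = 1 := (sub_eq_zero.1 e3).symm
  have e5 : (x0 ᵥ* s) ᵥ* X.d 0 = x0 := by
    rw [Matrix.vecMul_vecMul, e4, Matrix.vecMul_one]
  rw [← e5, eps_d] at hx0
  exact zero_ne_one hx0

variable {h : ℕ}

/-- powers of the elements of a basis of `ℤ^h` form a chain -/
lemma chain_of_pow (j : Multiplicative (Fin h → ℤ) →* G) (hj : Function.Injective j) (c : ℕ → G)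
    (m : Fin h → ℕ) (hm : ∀ i, 0 < m i)
    (hc : ∀ i : Fin h, c i = j (Multiplicative.ofAdd (Pi.single i 1)) ^ m i) (r : ℕ) (hr : r ≤ h) :
    NilpotentChain c r := by
  have hcm : ∀ i : Fin h, c i = j (Multiplicative.ofAdd (Pi.single i (m i : ℤ))) := by
    intro i
    rw [hc i, ← map_pow]
    congr 1
    rw [← ofAdd_nsmul]
    congr 1
    rw [← Pi.single_smul]
    simp
  refine ⟨fun i hi z hz => ?_, fun i k hik hk => ?_⟩
  · have hih : i < h := lt_of_lt_of_le hi hr
    let K : Subgroup G := (Subgroup.map j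
      { carrier := {v | Multiplicative.toAdd v ⟨i, hih⟩ = 0}
        one_mem' := rfl
        mul_mem' := by
          intro a b ha hb
          change Multiplicative.toAdd a ⟨i, hih⟩ + Multiplicative.toAdd b ⟨i, hih⟩ = 0
          rw [show Multiplicative.toAdd a ⟨i, hih⟩ = 0 from ha,
            show Multiplicative.toAdd b ⟨i, hih⟩ = 0 from hb, add_zero]
        inv_mem' := by
          intro a ha
          change -(Multiplicative.toAdd a ⟨i, hih⟩) = 0
          rw [show Multiplicative.toAdd a ⟨i, hih⟩ = 0 from ha, neg_zero] })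
    have h1 : gen c i ≤ K := by
      rw [gen, Subgroup.closure_le]
      rintro _ ⟨l, hl, rfl⟩
      have hlh : l < h := hl.trans hih
      refine ⟨Multiplicative.ofAdd (Pi.single ⟨l, hlh⟩ (m ⟨l, hlh⟩ : ℤ)), ?_, (hcm ⟨l, hlh⟩).symm⟩
      change (Pi.single (⟨l, hlh⟩ : Fin h) (m ⟨l, hlh⟩ : ℤ) : Fin h → ℤ) ⟨i, hih⟩ = 0
      rw [Pi.single_eq_of_ne]
      intro e
      rw [Fin.mk.injEq] at e
      omega
    obtain ⟨v, hv, e⟩ := h1 hz
    have h2 : c i ^ z = j (Multiplicative.ofAdd (z • Pi.single ⟨i, hih⟩ (m ⟨i, hih⟩ : ℤ))) := by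
      rw [show c i = c ((⟨i, hih⟩ : Fin h) : ℕ) from rfl, hcm ⟨i, hih⟩, ← map_zpow, ← ofAdd_zsmul]
    have h3 := hj (e.trans h2)
    have h4 : Multiplicative.toAdd v ⟨i, hih⟩ = 0 := hv
    rw [h3] at h4
    change z • (Pi.single (⟨i, hih⟩ : Fin h) (m ⟨i, hih⟩ : ℤ) : Fin h → ℤ) ⟨i, hih⟩ = 0 at h4
    rw [Pi.single_eq_same, smul_eq_mul, mul_eq_zero] at h4
    rcases h4 with h4 | h4
    · exact h4
    · have := hm ⟨i, hih⟩
      omega
  · have hih : i < h := lt_of_lt_of_le (hik.trans hk) hr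
    have hkh : k < h := lt_of_lt_of_le hk hr
    have h1 : c i * c k = c k * c i := by
      rw [show c i = c ((⟨i, hih⟩ : Fin h) : ℕ) from rfl,
        show c k = c ((⟨k, hkh⟩ : Fin h) : ℕ) from rfl, hcm, hcm, ← map_mul j, ← map_mul j, mul_comm]
    rw [h1]
    simp [Subgroup.one_mem]

theorem main (X : FinRes G) (A : Subgroup G) (e : A ≃* Multiplicative (Fin h → ℤ))
    (hA : Subgroup.Commensurable.commensurator A = ⊤)
    (hX : X.len ≤ h + 2 ∨ ∃ n ≤ h + 2, Nontrivial (X.cohomology n)) :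
    ∃ i ≤ 2, Nontrivial (X.homology (toRed G) i) := by
  classical
  have hn : ∃ n ≤ h + 2, Nontrivial (X.cohomology n) := by
    rcases hX with h1 | h1
    · obtain ⟨n, hn, h2⟩ := exists_cohomology X
      exact ⟨n, hn.trans h1, h2⟩
    · exact h1
  have hex : ∃ n, Nontrivial (X.cohomology n) := by
    obtain ⟨n, _, h2⟩ := hn
    exact ⟨n, h2⟩
  set n := Nat.find hex with hnd
  have hnt : Nontrivial (X.cohomology n) := Nat.find_spec hex
  have hmin : ∀ k < n, Subsingleton (X.cohomology k) := fun k hk =>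
    not_nontrivial_iff_subsingleton.1 (Nat.find_min hex hk)
  have hle : n ≤ h + 2 := by
    obtain ⟨n', hn', h2⟩ := hn
    exact (Nat.find_min' hex h2).trans hn'
  rcases Nat.lt_or_ge 2 n with h3 | h3
  swap
  · exact Pool.Agent.H919R4.ZS.main X (Or.inr ⟨n, h3, hnt⟩)
  clear_value n
  obtain ⟨k, rfl⟩ : ∃ k, n = k + 1 := ⟨n - 1, by omega⟩
  obtain ⟨y, hy0, hy1⟩ := exists_of_nontrivial X hnt
  let j : Multiplicative (Fin h → ℤ) →* G := A.subtype.comp e.symm.toMonoidHom
  have hj : Function.Injective j := by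
    intro a b hab
    exact e.symm.injective (Subtype.ext hab)
  have hjr : j.range = A := by
    ext g
    constructor
    · rintro ⟨v, rfl⟩
      exact (e.symm v).2
    · intro hg
      exact ⟨e ⟨g, hg⟩, by
        change ((e.symm (e ⟨g, hg⟩) : A) : G) = g
        rw [MulEquiv.symm_apply_apply]⟩
  have hA' : Subgroup.Commensurable.commensurator j.range = ⊤ := by rw [hjr]; exact hA
  have h4 : ∀ i : Fin h, ∃ m : ℕ, 0 < m ∧
      (fun l => y l * MonoidAlgebra.single (j (Multiplicative.ofAdd (Pi.single i 1)) ^ m) 1) - y ∈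
        X.coboundaries (k + 1) := fun i => smooth j X hA' k y hy0 ⟨_, rfl⟩
  choose m hm hfix using h4
  let c : ℕ → G := fun i => if hi : i < h then
    j (Multiplicative.ofAdd (Pi.single ⟨i, hi⟩ 1)) ^ m ⟨i, hi⟩ else 1
  have hc : ∀ i : Fin h, c i = j (Multiplicative.ofAdd (Pi.single i 1)) ^ m i := by
    intro i
    change (if hi : (i : ℕ) < h then _ else _) = _
    rw [dif_pos i.2]
  refine Pool.Agent.Results.MP_9f173d_gt.FixedClasses.result X (k + 1)
    (fun l _ hl => hmin l hl) c (chain_of_pow j hj c m hm hc (k + 1 - 2) (by omega)) y hy0 hy1 ?_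
  intro i hi
  have hih : i < h := by omega
  have h5 := hfix ⟨i, hih⟩
  rw [← hc ⟨i, hih⟩] at h5
  exact h5

end Pool.Agent.K9h14.ZB
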