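import Pool.Agent.K9h14.ZB.Hom

/-!
If `A` is a finitely generated abelian commensurated subgroup of `G`, then every class in
`H^k(G; ℤ[G])`, `k ≥ 1`, is fixed by a non-trivial power of every element of `A`.
-/

set_option autoImplicit false

open scoped Matrix

namespace Pool.Agent.K9h14.ZB

open Pool.Agent.H919R4.ZS (FinRes)

variable {G : Type} [Group G]

lemma mul_coeff (r v : MonoidAlgebra ℤ G) (g : G) :
    (r * v).coeff g = r.coeff.sum fun h a => a * v.coeff (h⁻¹ * g) := by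
  refine MonoidAlgebra.induction_linear r ?_ ?_ ?_
  · rw [zero_mul, MonoidAlgebra.coeff_zero, Finsupp.sum_zero_index]; rfl
  · intro x y hx hy
    rw [add_mul, MonoidAlgebra.coeff_add, Finsupp.add_apply, hx, hy, MonoidAlgebra.coeff_add,
      Finsupp.sum_add_index']
    · intro _; rw [zero_mul]
    · intro _ _ _; rw [add_mul]
  · intro h a
    rw [MonoidAlgebra.coeff_single_mul_apply, MonoidAlgebra.coeff_single,
      Finsupp.sum_single_index (by rw [zero_mul])]

lemma tw1_coeff (σ : G → MonoidAlgebra ℤ G) (c : G) (r : MonoidAlgebra ℤ G) (g : G) :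
    (tw1 σ c r).coeff g = r.coeff.sum fun h a => a * (σ (h⁻¹ * c * h)).coeff (h⁻¹ * g) := by
  refine MonoidAlgebra.induction_linear r ?_ ?_ ?_
  · rw [map_zero, MonoidAlgebra.coeff_zero, Finsupp.sum_zero_index]; rfl
  · intro x y hx hy
    rw [map_add, MonoidAlgebra.coeff_add, Finsupp.add_apply, hx, hy, MonoidAlgebra.coeff_add,
      Finsupp.sum_add_index']
    · intro _; rw [zero_mul]
    · intro _ _ _; rw [add_mul]
  · intro h a
    rw [tw1_single, smul_eq_mul, MonoidAlgebra.coeff_single_mul_apply, MonoidAlgebra.coeff_single,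
      Finsupp.sum_single_index (by rw [zero_mul])]

/-- `x ↦ x · y` -/
noncomputable def dt {n : ℕ} (y : Fin n → MonoidAlgebra ℤ G) :
    (Fin n → MonoidAlgebra ℤ G) →ₗ[MonoidAlgebra ℤ G] MonoidAlgebra ℤ G where
  toFun x := x ⬝ᵥ y
  map_add' x x' := add_dotProduct x x' y
  map_smul' r x := smul_dotProduct r x y

variable {h : ℕ} (j : Multiplicative (Fin h → ℤ) →* G)

lemma range_comm {a b : G} (ha : a ∈ j.range) (hb : b ∈ j.range) : a * b = b * a := by
  obtain ⟨a, rfl⟩ := ha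
  obtain ⟨b, rfl⟩ := hb
  rw [← map_mul, ← map_mul, mul_comm]

lemma conj_eq {f g β : G} (hβ : β ∈ j.range) (h : f⁻¹ * g ∈ j.range) :
    g * β * g⁻¹ = f * β * f⁻¹ := by
  have h1 := range_comm j h hβ
  have h2 : g * β * g⁻¹ = f * ((f⁻¹ * g) * β) * g⁻¹ := by group
  rw [h2, h1]
  group

theorem smooth (X : FinRes G) (hA : Subgroup.Commensurable.commensurator j.range = ⊤) (k : ℕ)
    (y : Fin (X.n (k + 1)) → MonoidAlgebra ℤ G) (hy : X.d (k + 1) *ᵥ y = 0) {b : G}
    (hb : b ∈ j.range) :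
    ∃ m : ℕ, 0 < m ∧
      (fun i => y i * MonoidAlgebra.single (b ^ m) 1) - y ∈ X.coboundaries (k + 1) := by
  classical
  obtain ⟨C, T, s, hC, H⟩ := exists_fam j X hA k
  obtain ⟨T', s', -, hE⟩ := step j X hA hC.1 H
  set C' := sb C (sup (X.d k)) with hC'
  have hdeep : Deep j.range C' := deep_sb hC _
  let σ : G → Fin (X.n k) → MonoidAlgebra ℤ G := fun c l => dt y (s c l)
  have hσ : ∀ c ∈ C', ∀ i, tw σ c (X.d k i) = dl c * y i := by
    intro c hc i
    have h1 := congrArg (dt y) (hE c hc i)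
    rw [map_add, map_smul, tw_map] at h1
    have h2 : dt y (s' c i ᵥ* X.d (k + 1)) = 0 := by
      change (s' c i ᵥ* X.d (k + 1)) ⬝ᵥ y = 0
      rw [← Matrix.dotProduct_mulVec, hy, dotProduct_zero]
    have h3 : dt y (Pi.single i 1 : Fin (X.n (k + 1)) → MonoidAlgebra ℤ G) = y i := by
      change (Pi.single i 1 : Fin (X.n (k + 1)) → MonoidAlgebra ℤ G) ⬝ᵥ y = y i
      rw [single_dotProduct, one_mul]
    rw [h2, zero_add, h3, smul_eq_mul] at h1
    exact h1
  let Y : Finset G := Finset.univ.biUnion fun i => (y i).coeff.support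
  have hYm : ∀ i, ∀ g ∈ (y i).coeff.support, g ∈ Y := fun i g hg =>
    Finset.mem_biUnion.2 ⟨i, Finset.mem_univ _, hg⟩
  choose F2 hF2 using fun t : G => coset2 hA t
  let F1 : Finset G := (Finset.image₂ (· * ·) T Y).biUnion F2
  have hσs : ∀ c ∈ C, ∀ l, ∀ g ∈ (σ c l).coeff.support, ∃ f ∈ F1, f⁻¹ * g ∈ j.range := by
    intro c hc l g hg
    have h1 : SP j.range (Finset.image₂ (· * ·) T Y) (σ c l) := by
      change SP _ _ (∑ m, s c l m * y m)
      refine SP.sum _ fun m _ => ?_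
      intro g hg
      obtain ⟨u, hu, v, hv, rfl⟩ := mem_support_mul hg
      obtain ⟨a, ha, t, ht, rfl⟩ := H.1 c hc l m u hu
      exact ⟨a, ha, t * v, Finset.mem_image₂_of_mem ht (hYm m v hv), mul_assoc _ _ _⟩
    obtain ⟨a, ha, t, ht, rfl⟩ := h1 g hg
    obtain ⟨f, hf, a', ha', e⟩ := hF2 t a ha
    refine ⟨f, Finset.mem_biUnion.2 ⟨t, ht, hf⟩, ?_⟩
    rw [e, inv_mul_cancel_left]
    exact ha'
  let F3 : Finset G := Finset.image₂ (· * ·) (sup (X.d k)) F1 ∪ Y
  let F : Finset G := Finset.image₂ (fun g f => g⁻¹ * f) (sup (X.d k)) F3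
  obtain ⟨m, hm, hmF⟩ := deep_multi hdeep (F ∪ F3) hb
  refine ⟨m, hm, ?_⟩
  set β := b ^ m with hβ
  have hβA : β ∈ j.range := j.range.pow_mem hb m
  let z : Fin (X.n k) → MonoidAlgebra ℤ G := fun l => MonoidAlgebra.ofCoeff
    (Finsupp.onFinset (F.biUnion fun f => (σ (f * β * f⁻¹) l).coeff.support)
      (fun g => if ∃ f ∈ F, f⁻¹ * g ∈ j.range then (σ (g * β * g⁻¹) l).coeff g else 0) (by
        intro g hg
        by_cases h1 : ∃ f ∈ F, f⁻¹ * g ∈ j.range
        · rw [if_pos h1] at hg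
          obtain ⟨f, hf, hfg⟩ := h1
          rw [conj_eq j hβA hfg] at hg
          exact Finset.mem_biUnion.2 ⟨f, hf, Finsupp.mem_support_iff.2 hg⟩
        · rw [if_neg h1] at hg
          exact absurd rfl hg))
  have hz : ∀ l g, (z l).coeff g =
      if ∃ f ∈ F, f⁻¹ * g ∈ j.range then (σ (g * β * g⁻¹) l).coeff g else 0 := fun l g => rfl
  refine ⟨z, ?_⟩
  change X.d k *ᵥ z = _
  funext i
  change ∑ l, X.d k i l * z l = y i * MonoidAlgebra.single β 1 - y i
  refine MonoidAlgebra.coeff_injective (Finsupp.ext fun g => ?_)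
  rw [MonoidAlgebra.coeff_sum, Finsupp.finsetSum_apply, MonoidAlgebra.coeff_sub, Finsupp.sub_apply,
    MonoidAlgebra.coeff_mul_single_apply, mul_one]
  simp only [mul_coeff]
  by_cases hg : ∃ f ∈ F3, f⁻¹ * g ∈ j.range
  · obtain ⟨f, hf, hfg⟩ := hg
    have hc : g * β * g⁻¹ ∈ C' := by
      rw [conj_eq j hβA hfg]
      exact hmF f (Finset.mem_union_right _ hf)
    have h1 : (tw σ (g * β * g⁻¹) (X.d k i)).coeff g = (dl (g * β * g⁻¹) * y i).coeff g := by
      rw [hσ _ hc i]
    rw [tw, MonoidAlgebra.coeff_sum, Finsupp.finsetSum_apply] at h1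
    simp only [tw1_coeff] at h1
    have h2 : (dl (g * β * g⁻¹) * y i).coeff g = (y i).coeff (g * β⁻¹) - (y i).coeff g := by
      rw [dl, sub_mul, one_mul, MonoidAlgebra.coeff_sub, Finsupp.sub_apply,
        MonoidAlgebra.coeff_single_mul_apply, one_mul]
      congr 2
      group
    rw [h2] at h1
    rw [← h1]
    refine Finset.sum_congr rfl fun l _ => Finsupp.sum_congr fun x hx => ?_
    rw [hz, if_pos ⟨x⁻¹ * f, Finset.mem_image₂_of_mem (mem_sup hx) hf, by
      convert hfg using 1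
      group⟩]
    congr 3
    group
  · have h1 : (y i).coeff g = 0 := by
      by_contra hne
      refine hg ⟨g, Finset.mem_union_right _ (hYm i g (Finsupp.mem_support_iff.2 hne)), ?_⟩
      rw [inv_mul_cancel]
      exact j.range.one_mem
    have h2 : (y i).coeff (g * β⁻¹) = 0 := by
      by_contra hne
      refine hg ⟨g * β⁻¹, Finset.mem_union_right _ (hYm i _ (Finsupp.mem_support_iff.2 hne)), ?_⟩
      have e : (g * β⁻¹)⁻¹ * g = β := by group
      rw [e]
      exact hβA
    rw [h1, h2, sub_zero]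
    refine Finset.sum_eq_zero fun l _ => Finset.sum_eq_zero fun x hx => ?_
    change _ * (z l).coeff (x⁻¹ * g) = 0
    rw [hz]
    split_ifs with h3
    · obtain ⟨f, hf, hfg⟩ := h3
      rw [mul_eq_zero]
      right
      by_contra hne
      rw [conj_eq j hβA hfg] at hne
      obtain ⟨f1, hf1, h4⟩ := hσs _ ((hmF f (Finset.mem_union_left _ hf)).1) l _
        (Finsupp.mem_support_iff.2 hne)
      refine hg ⟨x * f1, Finset.mem_union_left _ (Finset.mem_image₂_of_mem (mem_sup hx) hf1), ?_⟩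
      convert h4 using 1
      group
    · rw [mul_zero]

end Pool.Agent.K9h14.ZB
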